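import Pool.Agent.H24.Lib.R_seed8.H137R2.PFR.Basic
set_option autoImplicit false

/-! Kaimanovich-Vershik-Madiman and small facts on `E0`, `conv`, `dist`. -/

open scoped Classical

namespace H137.PFR

variable {Ω Ω' α β γ δ : Type*} [Fintype Ω] [Fintype Ω'] [Fintype α] [Fintype β] [Fintype γ]
  [Fintype δ]

variable {V : Type*} [AddCommGroup V] [Fintype V]

theorem push_id' (w : Ω → ℝ) : push w (fun x : Ω => x) = w := by
  funext a
  unfold push
  simp

theorem H_id (w : Ω → ℝ) : H w (fun x : Ω => x) = ent w := by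
  unfold H
  rw [push_id']

theorem E0_unit {μ₀ : V → ℝ} (h0 : Law μ₀) {w : Ω → ℝ} (hw : Law w) (X : Ω → V) :
    E0 μ₀ w X (fun _ => ()) = H (prod μ₀ w) (fun p : V × Ω => p.1 + X p.2) := by
  unfold E0
  exact H_eq (law_prod h0 hw) (fun q : V × Unit => q.1) (fun q : V => (q, ()))
    (fun _ => rfl) (fun _ => rfl)

theorem kvm {μ₀ : V → ℝ} (h0 : Law μ₀) {w : Ω → ℝ} (hw : Law w) (Y Z : Ω → V)
    (hYZ : H w (fun ω => (Y ω, Z ω)) = H w Y + H w Z) :
    E0 μ₀ w (fun ω => Y ω + Z ω) (fun _ => ()) ≤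
      E0 μ₀ w Y (fun _ => ()) + H w (fun ω => Y ω + Z ω) - H w Y := by
  rw [E0_unit h0 hw, E0_unit h0 hw]
  have hl := law_prod h0 hw
  have h1 := H_submod hl (fun p : V × Ω => p.1) (fun p : V × Ω => Z p.2)
    (fun p : V × Ω => p.1 + (Y p.2 + Z p.2))
  have h2 : H (prod μ₀ w) (fun p : V × Ω => (p.1, Z p.2, p.1 + (Y p.2 + Z p.2))) =
      H (prod μ₀ w) (fun p : V × Ω => (p.1, (Y p.2, Z p.2))) :=
    H_eq hl (fun q : V × V × V => (q.1, (q.2.2 - q.1 - q.2.1, q.2.1)))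
      (fun q : V × V × V => (q.1, q.2.2, q.1 + (q.2.1 + q.2.2)))
      (fun ω => by
        refine Prod.ext rfl (Prod.ext ?_ rfl)
        change ω.1 + (Y ω.2 + Z ω.2) - ω.1 - Z ω.2 = Y ω.2
        abel) (fun ω => rfl)
  have h3 : H (prod μ₀ w) (fun p : V × Ω => (p.1, (Y p.2, Z p.2))) =
      ent μ₀ + H w (fun ω => (Y ω, Z ω)) := by
    rw [← H_id μ₀]
    exact H_prod h0 hw (fun x : V => x) (fun ω => (Y ω, Z ω))
  have h4 : H (prod μ₀ w) (fun p : V × Ω => (p.1, p.1 + (Y p.2 + Z p.2))) =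
      H (prod μ₀ w) (fun p : V × Ω => (p.1, Y p.2 + Z p.2)) :=
    H_eq hl (fun q : V × V => (q.1, q.2 - q.1)) (fun q : V × V => (q.1, q.1 + q.2))
      (fun ω => by
        refine Prod.ext rfl ?_
        change ω.1 + (Y ω.2 + Z ω.2) - ω.1 = Y ω.2 + Z ω.2
        abel) (fun ω => rfl)
  have h5 : H (prod μ₀ w) (fun p : V × Ω => (p.1, Y p.2 + Z p.2)) =
      ent μ₀ + H w (fun ω => Y ω + Z ω) := by
    rw [← H_id μ₀]
    exact H_prod h0 hw (fun x : V => x) (fun ω => Y ω + Z ω)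
  have h6 : H (prod μ₀ w) (fun p : V × Ω => (Z p.2, p.1 + (Y p.2 + Z p.2))) =
      H (prod μ₀ w) (fun p : V × Ω => (Z p.2, p.1 + Y p.2)) :=
    H_eq hl (fun q : V × V => (q.1, q.2 - q.1)) (fun q : V × V => (q.1, q.2 + q.1))
      (fun ω => by
        refine Prod.ext rfl ?_
        change ω.1 + (Y ω.2 + Z ω.2) - Z ω.2 = ω.1 + Y ω.2
        abel) (fun ω => by
        refine Prod.ext rfl ?_
        change ω.1 + Y ω.2 + Z ω.2 = ω.1 + (Y ω.2 + Z ω.2)
        abel)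
  have h7 := H_subadd hl (fun p : V × Ω => Z p.2) (fun p : V × Ω => p.1 + Y p.2)
  have h8 := H_prod_snd h0 hw Z
  rw [h2, h3, h4, h5, h6] at h1
  rw [h8] at h7
  rw [hYZ] at h1
  linarith

theorem E0_cond_le {μ₀ : V → ℝ} (h0 : Law μ₀) {w : Ω → ℝ} (hw : Law w) (X : Ω → V)
    (C : Ω → γ) : E0 μ₀ w X C - H w C ≤ E0 μ₀ w X (fun _ => ()) := by
  rw [E0_unit h0 hw]
  have h1 := H_subadd (law_prod h0 hw) (fun p : V × Ω => p.1 + X p.2) (fun p : V × Ω => C p.2)
  rw [H_prod_snd h0 hw C] at h1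
  unfold E0
  linarith

theorem E0_translate {μ₀ : V → ℝ} (h0 : Law μ₀) {w : Ω → ℝ} (hw : Law w) (X : Ω → V)
    (C : Ω → γ) (f : γ → V) : E0 μ₀ w (fun ω => X ω + f (C ω)) C = E0 μ₀ w X C := by
  unfold E0
  exact H_eq (law_prod h0 hw) (fun q : V × γ => (q.1 - f q.2, q.2))
    (fun q : V × γ => (q.1 + f q.2, q.2))
    (fun ω => by
      refine Prod.ext ?_ rfl
      change ω.1 + (X ω.2 + f (C ω.2)) - f (C ω.2) = ω.1 + X ω.2
      abel) (fun ω => by
      refine Prod.ext ?_ rfl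
      change ω.1 + X ω.2 + f (C ω.2) = ω.1 + (X ω.2 + f (C ω.2))
      abel)

theorem E0_push {μ₀ : V → ℝ} (h0 : Law μ₀) {w : Ω → ℝ} (hw : Law w) (X : Ω → V) :
    E0 μ₀ w X (fun _ => ()) = ent (conv μ₀ (push w X)) := by
  rw [E0_unit h0 hw]
  have h1 : prod μ₀ (push w X) = push (prod μ₀ w) (fun p : V × Ω => (p.1, X p.2)) := by
    funext q
    obtain ⟨a, b⟩ := q
    have h2 := push_prod μ₀ w (fun x : V => x) X a b
    rw [h2, push_id']
    rfl
  unfold conv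
  rw [h1, push_push]
  rfl

theorem conv_comm (μ ν : V → ℝ) : conv μ ν = conv ν μ := by
  funext v
  unfold conv push prod
  rw [Fintype.sum_prod_type, Fintype.sum_prod_type, Finset.sum_comm]
  refine Finset.sum_congr rfl fun x _ => Finset.sum_congr rfl fun y _ => ?_
  change (if y + x = v then μ y * ν x else 0) = (if x + y = v then ν x * μ y else 0)
  rw [add_comm y x, mul_comm (μ y)]

theorem ent_le_conv_left {μ ν : V → ℝ} (hμ : Law μ) (hν : Law ν) : ent μ ≤ ent (conv μ ν) := by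
  have hl := law_prod hμ hν
  have h1 : H (prod μ ν) (fun p : V × V => (p.1, p.2)) = ent μ + ent ν := by
    rw [← H_id μ, ← H_id ν]
    exact H_prod hμ hν (fun x : V => x) (fun x : V => x)
  have h2 : H (prod μ ν) (fun p : V × V => (p.1, p.2)) =
      H (prod μ ν) (fun p : V × V => (p.1 + p.2, p.2)) :=
    H_eq hl (fun q : V × V => (q.1 + q.2, q.2)) (fun q : V × V => (q.1 - q.2, q.2))
      (fun ω => rfl) (fun ω => by
        refine Prod.ext ?_ rfl
        change ω.1 + ω.2 - ω.2 = ω.1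
        abel)
  have h3 := H_subadd hl (fun p : V × V => p.1 + p.2) (fun p : V × V => p.2)
  have h4 := H_prod_snd hμ hν (fun x : V => x)
  rw [H_id] at h4
  rw [h4, ← h2, h1] at h3
  have h5 : H (prod μ ν) (fun p : V × V => p.1 + p.2) = ent (conv μ ν) := rfl
  linarith

theorem dist_nonneg {μ ν : V → ℝ} (hμ : Law μ) (hν : Law ν) : 0 ≤ dist μ ν := by
  have h1 := ent_le_conv_left hμ hν
  have h2 := ent_le_conv_left hν hμ
  rw [conv_comm ν μ] at h2
  unfold dist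
  linarith

end H137.PFR
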